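import Mathlib
import Pool.Agent.Y396.RN.Near

/-!
# MP_cd3201_co: `n` points in general position with few circumradii, few triangles up to translation

`h(n) ≤ n² exp (20 √(log n))` for all `n ≥ 3`; even the number of triangles up to translation can be
that small.
-/

set_option autoImplicit false

namespace Pool.Agent.Results.MP_cd3201_co.FewTriangleClasses

open Finset

/-- the Euclidean plane -/
abbrev Plane := EuclideanSpace ℝ (Fin 2)

/-- the points of `T` lie on a common circle of radius `r` -/
def HasRadius (T : Finset Plane) (r : ℝ) : Prop :=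
  ∃ c : Plane, (T : Set Plane) ⊆ Metric.sphere c r

/-- general position: no three points collinear, no four points on a circle -/
def GenPos (X : Finset Plane) : Prop :=
  (∀ T ⊆ X, T.card = 3 → ¬ Collinear ℝ (T : Set Plane)) ∧
  (∀ T ⊆ X, T.card = 4 → ¬ ∃ (c : Plane) (r : ℝ), (T : Set Plane) ⊆ Metric.sphere c r)

/-- the radii of the circles through three points of `P` -/
def Radii (P : Finset Plane) : Set ℝ := {r | ∃ T ⊆ P, T.card = 3 ∧ HasRadius T r}

/-- the least number of distinct radii determined by `n` points in general position -/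
noncomputable def h (n : ℕ) : ℕ :=
  sInf {m | ∃ P : Finset Plane, P.card = n ∧ GenPos P ∧ (Radii P).ncard = m}

open Classical in
/-- For every `n ≥ 3`:

1. the minimum `h n` is attained by a set in general position (with finitely many radii), and
   `h n ≤ n ^ 2 * exp (20 √(log n))`; in particular `h n ≤ n ^ (2 + o(1))`;
2. more generally there are `n` points in general position whose triangles all are translates of at
   most `n ^ 2 * exp (20 √(log n))` triangles. -/
theorem result (n : ℕ) (hn : 3 ≤ n) :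
    (∃ P : Finset Plane, P.card = n ∧ GenPos P ∧ (Radii P).Finite ∧ (Radii P).ncard = h n) ∧
    (h n : ℝ) ≤ (n : ℝ) ^ 2 * Real.exp (20 * √(Real.log n)) ∧
    ∃ P : Finset Plane, P.card = n ∧ GenPos P ∧ ∃ F : Finset (Finset Plane),
      (F.card : ℝ) ≤ (n : ℝ) ^ 2 * Real.exp (20 * √(Real.log n)) ∧
      ∀ T ⊆ P, T.card = 3 → ∃ T' ∈ F, ∃ v : Plane, T = T'.image (fun x => x + v) := by
  obtain ⟨P, h1, h2, h3, h4⟩ := Pool.Agent.Y396.RN.few_radiiC n hn
  have hmem : (Radii P).ncard ∈
      {m | ∃ P : Finset Plane, P.card = n ∧ GenPos P ∧ (Radii P).ncard = m} := ⟨P, h1, h2, rfl⟩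
  refine ⟨?_, ?_, ?_⟩
  · obtain ⟨Q, q1, q2, q3⟩ := Nat.sInf_mem (⟨_, hmem⟩ :
      {m | ∃ P : Finset Plane, P.card = n ∧ GenPos P ∧ (Radii P).ncard = m}.Nonempty)
    exact ⟨Q, q1, q2, Pool.Agent.Helper543.RadiiLow.radii_finite Q, q3⟩
  · have h5 : h n ≤ (Radii P).ncard := Nat.sInf_le hmem
    calc (h n : ℝ) ≤ ((Radii P).ncard : ℝ) := by exact_mod_cast h5
      _ ≤ _ := h4
  · obtain ⟨Q, q1, q2, D, hD, hdif⟩ := Pool.Agent.Y396.RN.exists_planeC n hn
    refine ⟨Q, q1, q2, (D ×ˢ D).image (fun p => {0, p.1, p.2}), ?_, ?_⟩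
    · have h6 : ((D ×ˢ D).image (fun p => ({0, p.1, p.2} : Finset Plane))).card ≤
          D.card * D.card := by
        rw [← card_product]
        exact card_image_le
      set s : ℝ := √(Real.log n) with hs
      calc (((D ×ˢ D).image (fun p => ({0, p.1, p.2} : Finset Plane))).card : ℝ)
          ≤ (D.card : ℝ) * D.card := by exact_mod_cast h6
        _ ≤ (n * Real.exp (10 * s)) * (n * Real.exp (10 * s)) := by gcongr
        _ = (n : ℝ) ^ 2 * (Real.exp (10 * s) * Real.exp (10 * s)) := by ring
        _ = (n : ℝ) ^ 2 * Real.exp (20 * s) := by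
            rw [← Real.exp_add]; congr 2; ring
    · intro T hT hTc
      obtain ⟨a, b, c, hab, hac, hbc, rfl⟩ := card_eq_three.1 hTc
      have ha := hT (show a ∈ ({a, b, c} : Finset Plane) by simp)
      have hb := hT (show b ∈ ({a, b, c} : Finset Plane) by simp)
      have hc := hT (show c ∈ ({a, b, c} : Finset Plane) by simp)
      refine ⟨{0, b - a, c - a}, mem_image.2 ⟨(b - a, c - a), mem_product.2
        ⟨hdif b hb a ha, hdif c hc a ha⟩, rfl⟩, a, ?_⟩
      simp [image_insert]

end Pool.Agent.Results.MP_cd3201_co.FewTriangleClasses
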